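import Mathlib
import Pool.Agent.H53.KhC

open Finset MeasureTheory Filter Topology

namespace Pool.Agent.Results.MP_83af8b_an.Full

theorem result : IsMeagre {ω : ℕ → ({2, 3} : Set ℕ) | ∀ f : UnitAddCircle → ℝ, Integrable f → ∀ᵐ x : UnitAddCircle,
    Tendsto (fun N : ℕ => (1 / N : ℝ) * ∑ n ∈ range N, f ((∏ i ∈ range (n + 1), (ω i : ℕ)) • x)) atTop (𝓝 (∫ x, f x))} :=
  Pool.Agent.H53.Kh.meagre _ (Or.inl rfl) (Or.inr rfl) fun n h => by rcases h with rfl | rfl <;> norm_num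

end Pool.Agent.Results.MP_83af8b_an.Full
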